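import Pool.Agent.Helper70.MM.Goals

/-! Packet MM-QCALL. -/

open MeasureTheory Set Metric
open scoped ENNReal RealInnerProductSpace Topology
open Pool.Agent.Results.MP_91ee6f_gt
open Pool.Agent.Helper70.MM

namespace Pool.Agent.Helper2.MM

theorem norm_smul_unit {n : ℕ} {e : En n} (he : ‖e‖ = 1) {r : ℝ} (hr : 0 ≤ r) :
    ‖r • e‖ = r := by
  rw [norm_smul, he, mul_one, Real.norm_of_nonneg hr]

theorem far {n : ℕ} (hS : SPH1) (hn : 1 ≤ n) {R : ℝ} (hR : 0 < R) {e : En n} (he : ‖e‖ = 1)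
    {r : ℝ} (hr : 0 ≤ r) : ∀ᵐ y ∂(sphUnif n R), R - r ≤ dist (r • e) y := by
  filter_upwards [(hS n hn R).2.1 hR.le] with y hy
  have h1 : ‖y‖ - ‖r • e‖ ≤ ‖y - r • e‖ := norm_sub_norm_le y (r • e)
  rw [norm_smul_unit he hr, hy] at h1
  rw [dist_comm, dist_eq_norm]
  exact h1

theorem near {n : ℕ} {R : ℝ} {e : En n} (he : ‖e‖ = 1) {j : ℕ}
    (hrad : ∀ x x' : En n, ‖x‖ < R → ‖x‖ = ‖x'‖ →
      U (sphUnif n R) j x = U (sphUnif n R) j x')
    {r : ℝ} (hr : 0 ≤ r) (hrR : r < R) {ε : ℝ} (hε : 0 < ε) :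
    ∀ᶠ x in 𝓝 (r • e), ‖x‖ < R ∧ |‖x‖ - r| < ε ∧
      U (sphUnif n R) j x = U (sphUnif n R) j (‖x‖ • e) := by
  have hc : Filter.Tendsto (fun x : En n => ‖x‖) (𝓝 (r • e)) (𝓝 r) := by
    have := (continuous_norm (E := En n)).tendsto (r • e)
    rwa [norm_smul_unit he hr] at this
  have h1 : ∀ᶠ x in 𝓝 (r • e), ‖x‖ < R := hc.eventually (gt_mem_nhds hrR)
  have h2 : ∀ᶠ x in 𝓝 (r • e), dist ‖x‖ r < ε := hc.eventually (Metric.ball_mem_nhds r hε)
  filter_upwards [h1, h2] with x hx1 hx2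
  refine ⟨hx1, ?_, ?_⟩
  · rwa [Real.dist_eq] at hx2
  · apply hrad x _ hx1
    rw [norm_smul_unit he (norm_nonneg x)]

theorem qcall (hS : SPH1) (hL : ULOC) (hU : URAD) (hQ : QCSTEP) : QCALL := by
  intro n hn R hR
  -- local maxima
  have hmax : ∀ (j : ℕ) (e : En n), ‖e‖ = 1 → ∀ r : ℝ, 0 ≤ r → r < R →
      LMax R (fun r => U (sphUnif n R) j (r • e)) r →
      U (sphUnif n R) j (r • e) ≤
        ((n : ℝ) - 1 - 2 * j) * U (sphUnif n R) (j + 1) (r • e) := by
    intro j e he r hr hrR ⟨ε, hε, hloc⟩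
    haveI : IsProbabilityMeasure (sphUnif n R) := (hS n hn R).1
    refine (hL n j (sphUnif n R) inferInstance (r • e) (R - r) (by linarith)
      (far hS hn hR he hr)).1 ?_
    have h := near (e := e) he (hU n hn R hR j).2.1 hr hrR hε
    filter_upwards [h] with x hx
    rw [hx.2.2]
    exact hloc ‖x‖ (norm_nonneg x) hx.1 hx.2.1
  have hmin : ∀ (j : ℕ) (e : En n), ‖e‖ = 1 → ∀ r : ℝ, 0 ≤ r → r < R →
      LMax R (fun s => -U (sphUnif n R) j (s • e)) r →
      ((n : ℝ) - 1 - 2 * j) * U (sphUnif n R) (j + 1) (r • e) ≤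
        U (sphUnif n R) j (r • e) := by
    intro j e he r hr hrR ⟨ε, hε, hloc⟩
    haveI : IsProbabilityMeasure (sphUnif n R) := (hS n hn R).1
    refine (hL n j (sphUnif n R) inferInstance (r • e) (R - r) (by linarith)
      (far hS hn hR he hr)).2 ?_
    have h := near (e := e) he (hU n hn R hR j).2.1 hr hrR hε
    filter_upwards [h] with x hx
    rw [hx.2.2]
    have := hloc ‖x‖ (norm_nonneg x) hx.1 hx.2.1
    simp only at this
    linarith
  have hcont : ∀ (j : ℕ) (e : En n), ‖e‖ = 1 →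
      ContinuousOn (fun r => U (sphUnif n R) j (r • e)) (Ico 0 R) := by
    intro j e he
    refine (hU n hn R hR j).2.2.1.comp (by fun_prop) ?_
    intro r hr
    rw [mem_ball_zero_iff, norm_smul_unit he hr.1]
    exact hr.2
  -- the monotone case
  have hmono : ∀ (j : ℕ) (e : En n), ‖e‖ = 1 → (n : ℝ) - 1 - 2 * j ≤ 0 →
      QC R (fun r => U (sphUnif n R) j (r • e)) := by
    intro j e he hk a b c ha hab hbc hc
    refine le_trans (min_le_left _ _) ?_
    by_contra hlt
    rw [not_le] at hlt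
    have hbR : b < R := lt_of_le_of_lt hbc hc
    have hb0 : 0 ≤ b := ha.trans hab
    have hcb : ContinuousOn (fun r => U (sphUnif n R) j (r • e)) (Icc 0 b) :=
      (hcont j e he).mono fun x hx => ⟨hx.1, lt_of_le_of_lt hx.2 hbR⟩
    obtain ⟨r1, hr1, hr1max⟩ := isCompact_Icc.exists_isMaxOn (nonempty_Icc.2 hb0) hcb
    have h1 : U (sphUnif n R) j (a • e) ≤ U (sphUnif n R) j (r1 • e) :=
      hr1max ⟨ha, hab⟩
    have hne : r1 ≠ b := by
      rintro rfl
      exact absurd (lt_of_le_of_lt h1 hlt) (lt_irrefl _)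
    have hr1b : r1 < b := lt_of_le_of_ne hr1.2 hne
    have hr1R : r1 < R := hr1b.trans hbR
    have h2 := hmax j e he r1 hr1.1 hr1R ⟨b - r1, by linarith, fun s hs0 hsR hs => by
      have hsb : s ≤ b := by
        have := (abs_lt.1 hs).2
        linarith
      exact hr1max ⟨hs0, hsb⟩⟩
    have hn1 : ‖r1 • e‖ < R := by rw [norm_smul_unit he hr1.1]; exact hr1R
    have h3 := (hU n hn R hR j).1 (r1 • e) hn1
    have h4 := (hU n hn R hR (j + 1)).1 (r1 • e) hn1
    have h5 : ((n : ℝ) - 1 - 2 * j) * U (sphUnif n R) (j + 1) (r1 • e) ≤ 0 :=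
      mul_nonpos_of_nonpos_of_nonneg hk h4.le
    linarith
  have main : ∀ (m j : ℕ), n ≤ j + m → ∀ e : En n, ‖e‖ = 1 →
      QC R (fun r => U (sphUnif n R) j (r • e)) := by
    intro m
    induction m with
    | zero =>
      intro j hj e he
      apply hmono j e he
      have : (n : ℝ) ≤ j := by exact_mod_cast (by simpa using hj : n ≤ j)
      have h0 : (0 : ℝ) ≤ j := Nat.cast_nonneg j
      linarith
    | succ m ih =>
      intro j hj e he
      rcases le_or_gt ((n : ℝ) - 1 - 2 * j) 0 with hk | hk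
      · exact hmono j e he hk
      · have hG := ih (j + 1) (by omega) e he
        have hA : 0 < R ^ 2 * om (j + 1) (2 * R) :=
          mul_pos (by positivity) (om_pos (j + 1) (by positivity))
        refine hQ R ((n : ℝ) - 1 - 2 * j) (R ^ 2 * om (j + 1) (2 * R)) _
          (fun r => U (sphUnif n R) (j + 1) (r • e)) hR hk hA (hcont j e he) hG ?_ ?_ ?_
        · intro r hr hrR h
          exact hmax j e he r hr hrR h
        · intro r hr hrR h
          exact hmin j e he r hr hrR h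
        · intro r0 c hr0 hr0c hcR h
          exact (hU n hn R hR j).2.2.2 e r0 c he hr0 hr0c hcR h
  intro j e he
  exact main n j (by omega) e he

end Pool.Agent.Helper2.MM
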